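import Pool.Agent.Lib.MP_bfa8dc_co.All

set_option autoImplicit false

namespace Pool.Agent.Results.MP_bfa8dc_co.NotDense

/-- The family of all `d`-polytopes in `ℝ^d`: convex hulls of finite sets with nonempty
interior. -/
def polytopes (d : ℕ) : Set (Set (EuclideanSpace ℝ (Fin d))) :=
  {P | (∃ s : Finset (EuclideanSpace ℝ (Fin d)),
    P = convexHull ℝ (s : Set (EuclideanSpace ℝ (Fin d)))) ∧ (interior P).Nonempty}

/-- The faces of dimension `n` of `P`. -/
def faces {d : ℕ} (P : Set (EuclideanSpace ℝ (Fin d))) (n : ℕ) :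
    Set (Set (EuclideanSpace ℝ (Fin d))) :=
  {F | IsExposed ℝ P F ∧ F.Nonempty ∧ Module.finrank ℝ (affineSpan ℝ F).direction = n}

/-- `F` is an `n`-simplex: the convex hull of `n + 1` affinely independent points. -/
def IsSimplex {d : ℕ} (n : ℕ) (F : Set (EuclideanSpace ℝ (Fin d))) : Prop :=
  ∃ v : Fin (n + 1) → EuclideanSpace ℝ (Fin d),
    AffineIndependent ℝ v ∧ F = convexHull ℝ (Set.range v)

/-- The family of the `k`-simplicial and `h`-simple `d`-polytopes. -/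
def typeKH (d k h : ℕ) : Set (Set (EuclideanSpace ℝ (Fin d))) :=
  {P ∈ polytopes d | (∀ F ∈ faces P k, IsSimplex k F) ∧
    ∀ F ∈ faces P (d - 1 - h), {G ∈ faces P (d - 1) | F ⊆ G}.ncard = h + 1}

/-- The family `A` is dense in the family `B` for the Hausdorff distance. -/
def IsDenseIn {d : ℕ} (A B : Set (Set (EuclideanSpace ℝ (Fin d)))) : Prop :=
  ∀ ε : ℝ, 0 < ε → ∀ P ∈ B, ∃ Q ∈ A, Metric.hausdorffDist P Q < ε

/-- There is `K ≥ 1` such that for `k, h ≥ K` and `d = k + h` the `k`-simplicial `h`-simple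
`d`-polytopes are not dense in the family of all `d`-polytopes. -/
theorem result : ∃ K : ℕ, 1 ≤ K ∧ ∀ d k h : ℕ, K ≤ k → K ≤ h → k + h = d →
    ¬ IsDenseIn (typeKH d k h) (polytopes d) := by
  classical
  obtain ⟨K, hK, H⟩ := KHPoly.polyAll
  refine ⟨K, by omega, fun d k h h1 h2 h3 hD => ?_⟩
  obtain ⟨s, hs, far⟩ := KHPoly.farS d (by omega)
  obtain ⟨Q, ⟨⟨q1, q2⟩, q3, q4⟩, hd⟩ := hD (1 / 4) (by norm_num) _ ⟨⟨s, rfl⟩, hs⟩
  obtain ⟨t, ht, rfl⟩ := H d k h h1 h2 h3 Q ⟨q1, q2, fun F a b c => by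
    obtain ⟨v, hv, e⟩ := q3 F ⟨a, b, c⟩
    have r : ((Finset.univ.image v : Finset _) : Set (EuclideanSpace ℝ (Fin d))) =
      Set.range v := by simp
    exact ⟨Finset.univ.image v, by rw [r]; exact hv.range, by rw [r, e]⟩,
    fun F a b c => by simpa only [faces, Set.mem_ofPred_eq, and_assoc] using q4 F ⟨a, b, c⟩⟩
  refine (far t ?_ ht).not_gt hd
  rcases t.eq_empty_or_nonempty with rfl | h0
  · simp at q2
  · exact h0

end Pool.Agent.Results.MP_bfa8dc_co.NotDense
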