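import Pool.Agent.Lib.MP_bfa8dc_co.All

set_option autoImplicit false

namespace Pool.Agent.Results.MP_bfa8dc_co.OnlySimplices

/-- `F` is a nonempty exposed face of `Q` of dimension `n` -/
def IsFaceDim {d : ℕ} (Q F : Set (EuclideanSpace ℝ (Fin d))) (n : ℕ) : Prop :=
  IsExposed ℝ Q F ∧ F.Nonempty ∧ Module.finrank ℝ (affineSpan ℝ F).direction = n

/-- `F` is the convex hull of a finite affinely independent set -/
def IsSimplex {d : ℕ} (F : Set (EuclideanSpace ℝ (Fin d))) : Prop :=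
  ∃ t : Finset (EuclideanSpace ℝ (Fin d)),
    AffineIndependent ℝ
      (fun x : (t : Set (EuclideanSpace ℝ (Fin d))) => (x : EuclideanSpace ℝ (Fin d))) ∧
    F = convexHull ℝ (t : Set (EuclideanSpace ℝ (Fin d)))

/-- `Q` is the convex hull of a finite set and has nonempty interior -/
def IsPolytope {d : ℕ} (Q : Set (EuclideanSpace ℝ (Fin d))) : Prop :=
  (∃ s : Finset (EuclideanSpace ℝ (Fin d)),
    Q = convexHull ℝ (s : Set (EuclideanSpace ℝ (Fin d)))) ∧ (interior Q).Nonempty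

/-- There is `K` such that for `k, h ≥ K` every `k`-simplicial `h`-simple polytope of dimension
`d = k + h` is a simplex. -/
theorem result :
    ∃ K : ℕ, ∀ d k h : ℕ, K ≤ k → K ≤ h → k + h = d →
      ∀ Q : Set (EuclideanSpace ℝ (Fin d)), IsPolytope Q →
        (∀ F, IsFaceDim Q F k → IsSimplex F) →
        (∀ F, IsFaceDim Q F (d - 1 - h) →
          {G | IsFaceDim Q G (d - 1) ∧ F ⊆ G}.ncard = h + 1) →
        IsSimplex Q := by
  obtain ⟨K, _, hK⟩ := KHPoly.polyAll
  refine ⟨K, fun d k h h1 h2 h3 Q q1 q3 q4 => ?_⟩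
  have q2 := q1.2
  obtain ⟨t, ht, hQ⟩ := hK d k h h1 h2 h3 Q ⟨q1.1, q2, fun F a b c => q3 F ⟨a, b, c⟩,
    fun F a b c => by
      have := q4 F ⟨a, b, c⟩
      simpa only [IsFaceDim, and_assoc] using this⟩
  have hspan : affineSpan ℝ (t : Set (EuclideanSpace ℝ (Fin d))) = ⊤ := by
    rw [← interior_convexHull_nonempty_iff_affineSpan_eq_top, ← hQ]
    exact q2
  have hv : vectorSpan ℝ (t : Set (EuclideanSpace ℝ (Fin d))) = ⊤ :=
    AffineSubspace.vectorSpan_eq_top_of_affineSpan_eq_top ℝ _ _ hspan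
  have hr : Set.range (fun x : (t : Set (EuclideanSpace ℝ (Fin d))) =>
      (x : EuclideanSpace ℝ (Fin d))) = (t : Set (EuclideanSpace ℝ (Fin d))) := Subtype.range_coe
  have hne : t.Nonempty := by
    rcases t.eq_empty_or_nonempty with rfl | h0
    · rw [hQ] at q2
      simp at q2
    · exact h0
  obtain ⟨n, hn⟩ : ∃ n, t.card = n + 1 := ⟨t.card - 1, by have := hne.card_pos; omega⟩
  have hc : Fintype.card (t : Set (EuclideanSpace ℝ (Fin d))) = n + 1 := by simpa using hn
  have hle := finrank_vectorSpan_range_le ℝ (fun x : (t : Set (EuclideanSpace ℝ (Fin d))) =>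
      (x : EuclideanSpace ℝ (Fin d))) hc
  have hd : Module.finrank ℝ (vectorSpan ℝ (Set.range
      (fun x : (t : Set (EuclideanSpace ℝ (Fin d))) => (x : EuclideanSpace ℝ (Fin d))))) = d := by
    rw [hr, hv, finrank_top, finrank_euclideanSpace_fin]
  refine ⟨t, ?_, hQ⟩
  rw [affineIndependent_iff_finrank_vectorSpan_eq ℝ _ hc, hd]
  omega

end Pool.Agent.Results.MP_bfa8dc_co.OnlySimplices
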